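import Mathlib

/-!
# CP monoids: basic definitions
-/

namespace Pool.Agent.R830.CP

universe u

/-- A `d`-CP structure on a monoid `M`. -/
structure CPStr (M : Type u) [Monoid M] (d : ℕ) where
  Φ : (Fin d → M) → M
  τ : Fin d → M
  bij : Function.Bijective Φ
  law : ∀ (m : Fin d → M) (i : Fin d), τ i * Φ m = m i

namespace CPStr

variable {M : Type u} [Monoid M]

/-- The 1-CP structure `(id, 1)`. -/
def triv (M : Type u) [Monoid M] : CPStr M 1 where
  Φ := fun m => m 0
  τ := fun _ => 1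
  bij := by
    refine ⟨fun a b h => ?_, fun b => ⟨fun _ => b, rfl⟩⟩
    funext i
    have : i = 0 := Subsingleton.elim _ _
    subst this
    exact h
  law := by
    intro m i
    have : i = 0 := Subsingleton.elim _ _
    subst this
    simp

/-- The distinguished element `τ_{ij} ρ_i` of the combined structure. -/
def combineτ {s : ℕ} (Ψ : CPStr M s) (d : Fin s → ℕ) (X : ∀ i, CPStr M (d i))
    (x : (i : Fin s) × Fin (d i)) : M := (X x.1).τ x.2 * Ψ.τ x.1

/-- Combining an `s`-CP structure `Ψ` with `d i`-CP structures `X i`, `i < s`, into a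
`∑ i, d i`-CP structure; the positions `(i, j)` are ordered lexicographically. -/
def combine {s : ℕ} (Ψ : CPStr M s) (d : Fin s → ℕ) (X : ∀ i, CPStr M (d i)) :
    CPStr M (∑ i, d i) where
  Φ := fun m => Ψ.Φ (fun i => (X i).Φ (fun j => m (finSigmaFinEquiv ⟨i, j⟩)))
  τ := fun k => combineτ Ψ d X (finSigmaFinEquiv.symm k)
  bij := by
    constructor
    · intro a b h
      have h1 := Ψ.bij.1 h
      funext k
      obtain ⟨⟨i, j⟩, rfl⟩ := finSigmaFinEquiv.surjective k
      have h2 := (X i).bij.1 (congrFun h1 i)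
      exact congrFun h2 j
    · intro b
      obtain ⟨c, rfl⟩ := Ψ.bij.2 b
      choose e he using fun i => (X i).bij.2 (c i)
      refine ⟨fun k => e (finSigmaFinEquiv.symm k).1 (finSigmaFinEquiv.symm k).2, ?_⟩
      show Ψ.Φ _ = Ψ.Φ c
      congr 1
      funext i
      rw [← he i]
      congr 1
      funext j
      exact congrArg (fun x : (i : Fin s) × Fin (d i) => e x.1 x.2)
        (Equiv.symm_apply_apply finSigmaFinEquiv ⟨i, j⟩)
  law := by
    intro m k
    obtain ⟨⟨i, j⟩, rfl⟩ := finSigmaFinEquiv.surjective k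
    rw [Equiv.symm_apply_apply]
    show (X i).τ j * Ψ.τ i * Ψ.Φ _ = _
    rw [mul_assoc, Ψ.law, (X i).law]

/-- The element `Φ (τ_{σ⁻¹(1)}, …, τ_{σ⁻¹(d)})`. -/
def perm {d : ℕ} (X : CPStr M d) (σ : Equiv.Perm (Fin d)) : M :=
  X.Φ (fun i => X.τ (σ⁻¹ i))

theorem ext_iff' {d : ℕ} (X : CPStr M d) (a b : M) (h : ∀ i, X.τ i * a = X.τ i * b) : a = b := by
  obtain ⟨c, rfl⟩ := X.bij.2 a
  obtain ⟨e, rfl⟩ := X.bij.2 b
  congr 1
  funext i
  rw [← X.law c i, ← X.law e i]
  exact h i

theorem τ_mul_perm {d : ℕ} (X : CPStr M d) (σ : Equiv.Perm (Fin d)) (i : Fin d) :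
    X.τ i * X.perm σ = X.τ (σ⁻¹ i) := X.law _ i

theorem perm_mul_inv {d : ℕ} (X : CPStr M d) (σ : Equiv.Perm (Fin d)) :
    X.perm σ * X.perm σ⁻¹ = 1 := by
  apply X.ext_iff'
  intro i
  rw [← mul_assoc, τ_mul_perm, τ_mul_perm]
  simp

/-- `X.perm σ` as a unit. -/
def permUnit {d : ℕ} (X : CPStr M d) (σ : Equiv.Perm (Fin d)) : Mˣ where
  val := X.perm σ
  inv := X.perm σ⁻¹
  val_inv := X.perm_mul_inv σ
  inv_val := by simpa using X.perm_mul_inv σ⁻¹

end CPStr

/-- A CP monoid: a monoid with a 2-CP structure `(Σ, π₁, π₂)`. -/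
class CPMonoid (M : Type u) extends Monoid M where
  str : CPStr M 2

/-- `Σ`. -/
def Sg {M : Type u} [CPMonoid M] (m : Fin 2 → M) : M := (CPMonoid.str (M := M)).Φ m

/-- `π₁, π₂`. -/
def p {M : Type u} [CPMonoid M] (i : Fin 2) : M := (CPMonoid.str (M := M)).τ i

theorem p_mul_Sg {M : Type u} [CPMonoid M] (m : Fin 2 → M) (i : Fin 2) : p i * Sg m = m i :=
  (CPMonoid.str (M := M)).law m i

theorem ext_p {M : Type u} [CPMonoid M] {a b : M} (h : ∀ i : Fin 2, p i * a = p i * b) : a = b :=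
  (CPMonoid.str (M := M)).ext_iff' a b h

theorem eq_Sg {M : Type u} [CPMonoid M] (a : M) : a = Sg (fun i => p i * a) := by
  apply ext_p
  intro i
  rw [p_mul_Sg]

/-- Homomorphisms of CP monoids. -/
structure CPHom (M N : Type u) [CPMonoid M] [CPMonoid N] extends M →* N where
  map_p : ∀ i : Fin 2, toFun (p i) = p i
  map_Sg : ∀ m : Fin 2 → M, toFun (Sg m) = Sg (fun i => toFun (m i))

/-- `U` is a universal CP monoid: an initial object of the category of CP monoids. -/
def IsUniversal (U : Type u) [CPMonoid U] : Prop :=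
  ∀ (N : Type u) [CPMonoid N], Nonempty (Unique (CPHom U N))

/-- The set `𝕊(U)`: the CP structures obtained from `(Σ, π₁, π₂)` and `(id, 1)` by finitely many
combinations. -/
inductive InS {U : Type u} [CPMonoid U] : ∀ {d : ℕ}, CPStr U d → Prop
  | std : InS (CPMonoid.str (M := U))
  | triv : InS (CPStr.triv U)
  | combine {s : ℕ} (Ψ : CPStr U s) (d : Fin s → ℕ) (X : ∀ i, CPStr U (d i)) :
      InS Ψ → (∀ i, InS (X i)) → InS (Ψ.combine d X)

end Pool.Agent.R830.CP
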