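import Pool.Agent.R830.CP.Model

/-!
# The unit group of the universal CP monoid is generated by the finite symmetric groups
-/

namespace Pool.Agent.R830.CP

universe u

/-- `Good T m`: the leaf components of `m` along `T` are words. -/
def Good {U : Type u} [CPMonoid U] (T : Tree) (m : U) : Prop :=
  ∀ γ, Leaf T γ → ∃ w, A γ * m = A w

section

variable {U : Type u} [CPMonoid U]

theorem good_Sg (m : Fin 2 → U) (c : Fin 2 → Tree) (h : ∀ i, Good (c i) (m i)) :
    Good (.node c) (Sg m) := by
  intro γ hγ
  match γ, hγ with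
  | i :: γ, hγ =>
    obtain ⟨w, hw⟩ := h i γ hγ
    refine ⟨w, ?_⟩
    rw [A_cons, mul_assoc, p_mul_Sg, hw]

theorem good_p_mul (m : U) (h : ∃ T, Good T m) (i : Fin 2) : ∃ T, Good T (p i * m) := by
  obtain ⟨T, hT⟩ := h
  cases T with
  | leaf =>
    refine ⟨.leaf, ?_⟩
    intro γ hγ
    have hγ' : γ = [] := hγ
    subst hγ'
    obtain ⟨w, hw⟩ := hT [] rfl
    refine ⟨w ++ [i], ?_⟩
    rw [A_nil, one_mul] at hw
    rw [hw, A_append]
    simp
  | node c =>
    refine ⟨c i, ?_⟩
    intro γ hγ
    obtain ⟨w, hw⟩ := hT (i :: γ) hγ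
    refine ⟨w, ?_⟩
    rw [← hw, A_cons, mul_assoc]

theorem good_Sg' (m : Fin 2 → U) (h : ∀ i, ∃ T, Good T (m i)) : ∃ T, Good T (Sg m) := by
  choose c hc using h
  exact ⟨.node c, good_Sg m c hc⟩

theorem good_A_mul (w : List (Fin 2)) (b : U) (hb : ∃ T, Good T b) : ∃ T, Good T (A w * b) := by
  induction w generalizing b with
  | nil => simpa using hb
  | cons i w ih =>
    rw [A_cons, mul_assoc]
    exact ih _ (good_p_mul b hb i)

theorem good_mul (a b : U) (ha : ∃ T, Good T a) (hb : ∃ T, Good T b) : ∃ T, Good T (a * b) := by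
  obtain ⟨T, hT⟩ := ha
  induction T generalizing a with
  | leaf =>
    obtain ⟨w, hw⟩ := hT [] rfl
    rw [A_nil, one_mul] at hw
    rw [hw]
    exact good_A_mul w b hb
  | node c ih =>
    rw [eq_Sg (a * b)]
    apply good_Sg'
    intro i
    rw [← mul_assoc]
    apply ih i
    intro γ hγ
    obtain ⟨w, hw⟩ := hT (i :: γ) hγ
    exact ⟨w, by rw [← hw, A_cons, mul_assoc]⟩

theorem good_one : ∃ T, Good T (1 : U) := by
  refine ⟨.leaf, fun γ hγ => ⟨[], ?_⟩⟩
  have hγ' : γ = [] := hγ
  subst hγ'
  simp

theorem good_p (i : Fin 2) : ∃ T, Good T (p i : U) := by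
  refine ⟨.leaf, fun γ hγ => ⟨[i], ?_⟩⟩
  have hγ' : γ = [] := hγ
  subst hγ'
  simp

variable (U) in
/-- The submonoid of elements of tree form. -/
def S : Submonoid U where
  carrier := {m | ∃ T, Good T m}
  mul_mem' := fun {a b} ha hb => good_mul a b ha hb
  one_mem' := good_one

variable (U) in
/-- The CP structure on the submonoid of elements of tree form. -/
def sstr : CPStr (S U) 2 where
  Φ := fun m => ⟨Sg (fun i => (m i : U)), good_Sg' _ (fun i => (m i).2)⟩
  τ := fun i => ⟨p i, good_p i⟩
  bij := by
    constructor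
    · intro a b h
      have h1 : Sg (fun i => (a i : U)) = Sg (fun i => (b i : U)) := congrArg Subtype.val h
      funext i
      apply Subtype.ext
      rw [← p_mul_Sg (fun i => (a i : U)) i, h1, p_mul_Sg]
    · intro b
      refine ⟨fun i => ⟨p i * (b : U), good_p_mul _ b.2 i⟩, ?_⟩
      apply Subtype.ext
      exact (eq_Sg (b : U)).symm
  law := by
    intro m i
    apply Subtype.ext
    exact p_mul_Sg _ i

instance : CPMonoid (S U) := { (inferInstance : Monoid (S U)) with str := sstr U }

/-- The inclusion. -/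
def incl : CPHom (S U) U where
  toMonoidHom := (S U).subtype
  map_p := fun _ => rfl
  map_Sg := fun _ => rfl

/-- The identity. -/
def CPHom.id : CPHom U U where
  toMonoidHom := MonoidHom.id U
  map_p := fun _ => rfl
  map_Sg := fun _ => rfl

/-- Composition. -/
def CPHom.comp {M N P : Type u} [CPMonoid M] [CPMonoid N] [CPMonoid P] (g : CPHom N P)
    (f : CPHom M N) : CPHom M P where
  toMonoidHom := g.toMonoidHom.comp f.toMonoidHom
  map_p := fun i => by
    show g.toFun (f.toFun (p i)) = p i
    rw [f.map_p, g.map_p]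
  map_Sg := fun m => by
    show g.toFun (f.toFun (Sg m)) = Sg (fun i => g.toFun (f.toFun (m i)))
    rw [f.map_Sg, g.map_Sg]

theorem good_all (hU : IsUniversal U) (m : U) : ∃ T, Good T m := by
  obtain ⟨h1⟩ := hU (S U)
  obtain ⟨h2⟩ := hU U
  have h : incl.comp h1.default = CPHom.id := by
    rw [h2.uniq (incl.comp h1.default), h2.uniq CPHom.id]
  have h3 : (h1.default.toFun m : U) = m := congrArg (fun g : CPHom U U => g.toFun m) h
  rw [← h3]
  exact (h1.default.toFun m).2

theorem good_index (T : Tree) (m : U) (h : Good T m) (k : Fin (deg T)) :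
    ∃ w, (tstr U T).τ k * m = A w := by
  obtain ⟨γ, h1, h2⟩ := exists_leaf_of_index U T k
  rw [h2]
  exact h γ h1

end

section

variable {U : Type u} [CPMonoid U] (F : CPHom U NN.{u})

include F

theorem F_A (w : List (Fin 2)) : F.toFun (A w) = A w := by
  induction w with
  | nil => exact F.map_one
  | cons i w ih =>
    show F.toMonoidHom (A w * p i) = _
    rw [map_mul]
    show F.toFun (A w) * F.toFun (p i) = _
    rw [ih, F.map_p]
    rfl

/-- The map of the stream model given by an element. -/
def act (m : U) : C.{u} → C.{u} := (F.toFun m).f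

theorem act_mul (a b : U) (x : C.{u}) : act F (a * b) x = act F b (act F a x) := by
  show (F.toMonoidHom (a * b)).f x = _
  rw [map_mul]
  rfl

theorem act_one (x : C.{u}) : act F 1 x = x := by
  show (F.toMonoidHom 1).f x = x
  rw [map_one]
  rfl

theorem act_A (w : List (Fin 2)) (x : C.{u}) : act F (A w) x = prep w x := by
  show (F.toFun (A w)).f x = _
  rw [F_A, NN.A_f]

theorem act_unit_inj (g : Uˣ) : Function.Injective (act F (g : U)) := by
  intro x y h
  have h1 := congrArg (act F ((g⁻¹ : Uˣ) : U)) h
  rw [← act_mul, ← act_mul] at h1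
  simpa [act_one] using h1

theorem act_unit_surj (g : Uˣ) : Function.Surjective (act F (g : U)) := by
  intro y
  refine ⟨act F ((g⁻¹ : Uˣ) : U) y, ?_⟩
  rw [← act_mul]
  simp [act_one]

theorem act_prep (m : U) (γ w : List (Fin 2)) (h : A γ * m = A w) (x : C.{u}) :
    act F m (prep γ x) = prep w x := by
  rw [← act_A F γ, ← act_mul, h, act_A]

end

/-- A stream. -/
def x0 : C.{u} := fun _ => ⟨0⟩

/-- Two positions can be moved to two given positions. -/
theorem exists_perm {α : Type*} [DecidableEq α] (a b c d : α) (hab : a ≠ b) (hcd : c ≠ d) :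
    ∃ σ : Equiv.Perm α, σ a = c ∧ σ b = d := by
  have h1 : Equiv.swap a c b ≠ c := by
    intro h
    have h2 : b = a := by
      have := congrArg (Equiv.swap a c) h
      simpa using this
    exact hab h2.symm
  refine ⟨Equiv.swap (Equiv.swap a c b) d * Equiv.swap a c, ?_, ?_⟩
  · rw [Equiv.Perm.mul_apply, Equiv.swap_apply_left,
      Equiv.swap_apply_of_ne_of_ne h1.symm hcd]
  · rw [Equiv.Perm.mul_apply, Equiv.swap_apply_left]

/-- The key step: two leaves whose labels are siblings. -/
theorem exists_siblings {U : Type u} [CPMonoid U] (F : CPHom U NN.{u}) (c : Fin 2 → Tree) (g : Uˣ)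
    (hg : Good (.node c) (g : U)) : ∃ (v α β : List (Fin 2)), Leaf (.node c) α ∧
      Leaf (.node c) β ∧ A α * (g : U) = A (v ++ [0]) ∧ A β * (g : U) = A (v ++ [1]) := by
  classical
  set T : Tree := .node c with hTdef
  choose wd hwd using good_index T (g : U) hg
  have hne : (Finset.univ : Finset (Fin (deg T))).Nonempty :=
    ⟨⟨0, by have := deg_pos T; omega⟩, Finset.mem_univ _⟩
  obtain ⟨k, -, hk⟩ := Finset.exists_max_image Finset.univ (fun k => (wd k).length) hne
  obtain ⟨γ, hγ, hγ'⟩ := exists_leaf_of_index U T k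
  have hγg : A γ * (g : U) = A (wd k) := by rw [← hγ', hwd]
  -- any label of a leaf is short
  have hshort : ∀ δ w, Leaf T δ → A δ * (g : U) = A w → w.length ≤ (wd k).length := by
    intro δ w hδ hw
    obtain ⟨j, hj⟩ := exists_index_of_leaf U T δ hδ
    have h1 : (A (wd j) : U) = A w := by rw [← hwd, hj, hw]
    have h2 : prep (wd j) (x0.{u}) = prep w x0 := by
      rw [← act_A F, h1, act_A]
    have h3 : ∀ y : C.{u}, prep (wd j) y = prep w y := by
      intro y
      rw [← act_A F, h1, act_A]
    have h4 : w.length = (wd j).length := by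
      by_contra hne
      rcases Nat.lt_or_gt_of_ne hne with hlt | hlt
      · obtain ⟨t, ht, -⟩ := prep_cmp w (wd j) x0 x0 (h3 x0).symm hlt.le
        have ht' : t ≠ [] := by
          rintro rfl
          simp at ht
          rw [ht] at hlt
          exact lt_irrefl _ hlt
        obtain ⟨i, t', rfl⟩ := List.exists_cons_of_ne_nil ht'
        obtain ⟨s, hs, hs'⟩ := prep_cmp w (wd j) (cns (1 - i) x0) (cns (1 - i) x0)
          (h3 _).symm hlt.le
        have hst : s = i :: t' := List.append_cancel_left (hs.symm.trans ht)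
        rw [hst] at hs'
        have := (cns_inj hs').1
        revert this
        fin_cases i <;> simp
      · obtain ⟨t, ht, -⟩ := prep_cmp (wd j) w x0 x0 (h3 x0) hlt.le
        have ht' : t ≠ [] := by
          rintro rfl
          simp at ht
          rw [ht] at hlt
          exact lt_irrefl _ hlt
        obtain ⟨i, t', rfl⟩ := List.exists_cons_of_ne_nil ht'
        obtain ⟨s, hs, hs'⟩ := prep_cmp (wd j) w (cns (1 - i) x0) (cns (1 - i) x0)
          (h3 _) hlt.le
        have hst : s = i :: t' := List.append_cancel_left (hs.symm.trans ht)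
        rw [hst] at hs'
        have := (cns_inj hs').1
        revert this
        fin_cases i <;> simp
    rw [h4]
    exact hk j (Finset.mem_univ _)
  -- a leaf whose label is comparable with the longest label is the leaf itself
  have hkey : ∀ δ w t, Leaf T δ → A δ * (g : U) = A w → wd k = w ++ t → δ = γ := by
    intro δ w t hδ hw ht
    have h1 : act F (g : U) (prep δ (prep t x0)) = act F (g : U) (prep γ x0) := by
      rw [act_prep F _ _ _ hw, act_prep F _ _ _ hγg, ht, prep_append]
    exact (leaf_disj T δ γ _ _ hδ hγ (act_unit_inj F g h1)).1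
  -- the longest label is not empty
  have hnn : wd k ≠ [] := by
    intro h0
    have h0' : ∀ δ, Leaf T δ → δ = γ := by
      intro δ hδ
      obtain ⟨w, hw⟩ := hg δ hδ
      have h1 := hshort δ w hδ hw
      rw [h0] at h1
      have h2 : w = [] := by simpa using h1
      subst h2
      exact hkey δ [] [] hδ hw (by simp [h0])
    obtain ⟨δ, T', h1, h2, -, -⟩ := exists_caret c
    have h3 := (h0' _ h1).trans (h0' _ h2).symm
    have h4 := List.append_cancel_left h3
    simp at h4
  obtain ⟨v, i, hvi⟩ : ∃ v i, wd k = v ++ [i] := by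
    rcases List.eq_nil_or_concat (wd k) with h | ⟨v, i, h⟩
    · exact absurd h hnn
    · exact ⟨v, i, by simpa using h⟩
  -- the sibling
  obtain ⟨β, hβ, hβg⟩ : ∃ β, Leaf T β ∧ A β * (g : U) = A (v ++ [1 - i]) := by
    obtain ⟨x, hx⟩ := act_unit_surj F g (prep (v ++ [1 - i]) x0)
    obtain ⟨β, y, hβ, rfl⟩ := leaf_cover T x
    obtain ⟨w, hw⟩ := hg β hβ
    rw [act_prep F _ _ _ hw] at hx
    have hlen : w.length ≤ (v ++ [1 - i]).length := by
      have := hshort β w hβ hw
      rw [hvi] at this
      simpa using this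
    obtain ⟨t, ht, -⟩ := prep_cmp w (v ++ [1 - i]) y x0 hx hlen
    rcases List.eq_nil_or_concat t with h | ⟨t', j, h⟩
    · subst h
      refine ⟨β, hβ, ?_⟩
      rw [hw, ht]
      simp
    · exfalso
      have ht2 : v = w ++ t' := by
        have h1 : (v ++ [1 - i]) = (w ++ t') ++ [j] := by rw [ht, h]; simp
        exact (List.append_inj' h1 rfl).1
      have h2 : β = γ := hkey β w (t' ++ [i]) hβ hw (by rw [hvi, ht2]; simp)
      subst h2
      have h3 : (A w : U) = A (wd k) := by rw [← hw, hγg]
      have h4 : ∀ y : C.{u}, prep w y = prep (wd k) y := by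
        intro y
        rw [← act_A F, h3, act_A]
      rw [hvi, ht2] at h4
      obtain ⟨s, hs, hs'⟩ := prep_cmp w (w ++ t' ++ [i]) (cns (1 - i) x0) (cns (1 - i) x0)
        (h4 _) (by simp)
      have hst : s = t' ++ [i] := by
        apply List.append_cancel_left (as := w)
        rw [← hs]; simp
      -- take two different streams to see that the words differ
      cases t' with
      | nil =>
        rw [hst] at hs'
        have := (cns_inj hs').1
        revert this
        fin_cases i <;> simp
      | cons a t' =>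
        obtain ⟨s, hs, hs'⟩ := prep_cmp w (w ++ (a :: t') ++ [i]) (cns (1 - a) x0) (cns (1 - a) x0)
          (h4 _) (by simp)
        have hst : s = (a :: t') ++ [i] := by
          apply List.append_cancel_left (as := w)
          rw [← hs]; simp
        rw [hst] at hs'
        have := (cns_inj hs').1
        revert this
        fin_cases a <;> simp
  have hi : i = 0 ∨ i = 1 := by fin_cases i <;> simp
  rcases hi with rfl | rfl
  · exact ⟨v, γ, β, hγ, hβ, by rw [hγg, hvi], by simpa using hβg⟩
  · exact ⟨v, β, γ, hβ, hγ, by simpa using hβg, by rw [hγg, hvi]⟩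

/-- The set of units coming from the symmetric groups. -/
def gens (U : Type u) [CPMonoid U] : Set Uˣ :=
  {g | ∃ (d : ℕ) (X : CPStr U d) (σ : Equiv.Perm (Fin d)), 2 ≤ d ∧ InS X ∧ (g : U) = X.perm σ}

theorem A_inj {U : Type u} [CPMonoid U] (F : CPHom U NN.{u}) (T : Tree) (γ δ : List (Fin 2))
    (hγ : Leaf T γ) (hδ : Leaf T δ) (h : (A γ : U) = A δ) : γ = δ := by
  have h1 : prep γ (x0.{u}) = prep δ x0 := by rw [← act_A F, h, act_A]
  exact (leaf_disj T γ δ _ _ hγ hδ h1).1

theorem mem_closure {U : Type u} [CPMonoid U] (F : CPHom U NN.{u}) (n : ℕ) :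
    ∀ (T : Tree) (g : Uˣ), size T = n → Good T (g : U) → g ∈ Subgroup.closure (gens U) := by
  induction n using Nat.strong_induction_on with
  | _ n ih =>
  intro T g hT hg
  cases T with
  | leaf =>
    obtain ⟨w, hw⟩ := hg [] rfl
    have h1 : w = [] := by
      by_contra hne
      obtain ⟨i, w', rfl⟩ := List.exists_cons_of_ne_nil hne
      obtain ⟨x, hx⟩ := act_unit_surj F g (cns (1 - i) x0)
      have h2 : act F (g : U) x = prep (i :: w') x := act_prep F _ [] _ hw x
      rw [hx] at h2
      have := (cns_inj h2).1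
      revert this
      fin_cases i <;> simp
    subst h1
    have h2 : (g : U) = 1 := by simpa using hw
    have h3 : g = 1 := Units.ext h2
    rw [h3]
    exact Subgroup.one_mem _
  | node c =>
    obtain ⟨v, α, β, hα, hβ, hαg, hβg⟩ := exists_siblings F c g hg
    obtain ⟨δ, T', h0, h1, hsz, hT'⟩ := exists_caret c
    obtain ⟨a, ha⟩ := exists_index_of_leaf U (.node c) _ h0
    obtain ⟨b, hb⟩ := exists_index_of_leaf U (.node c) _ h1
    obtain ⟨a', ha'⟩ := exists_index_of_leaf U (.node c) _ hα
    obtain ⟨b', hb'⟩ := exists_index_of_leaf U (.node c) _ hβ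
    have hab : a ≠ b := by
      rintro rfl
      have h2 := A_inj F (.node c) _ _ h0 h1 (ha.symm.trans hb)
      have h3 := List.append_cancel_left h2
      simp at h3
    have hab' : a' ≠ b' := by
      rintro rfl
      have h2 := A_inj F (.node c) _ _ hα hβ (ha'.symm.trans hb')
      rw [h2, hβg] at hαg
      have h3 : prep (v ++ [1]) (x0.{u}) = prep (v ++ [0]) x0 := by
        rw [← act_A F, hαg, act_A]
      obtain ⟨t, ht, -⟩ := prep_cmp _ _ _ _ h3 (by simp)
      have h4 : t = [] := by
        have := congrArg List.length ht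
        simpa using this
      subst h4
      simp at ht
    obtain ⟨σ, hσa, hσb⟩ := exists_perm a b a' b' hab hab'
    set s : Uˣ := (tstr U (.node c)).permUnit σ⁻¹ with hs
    have hsτ : ∀ k, (tstr U (.node c)).τ k * (s : U) = (tstr U (.node c)).τ (σ k) := by
      intro k
      have hs' : (s : U) = (tstr U (.node c)).perm σ⁻¹ := rfl
      rw [hs', CPStr.τ_mul_perm, inv_inv]
    have hs1 : s ∈ Subgroup.closure (gens U) :=
      Subgroup.subset_closure ⟨_, tstr U (.node c), σ⁻¹, two_le_deg c, tstr_inS U _, rfl⟩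
    have hgood : Good T' ((s * g : Uˣ) : U) := by
      intro γ hγ
      rcases hT' γ hγ with rfl | hγ2
      · refine ⟨v, ?_⟩
        apply ext_p
        have e0 : A (γ ++ [0]) * ((s * g : Uˣ) : U) = A (v ++ [0]) := by
          rw [← ha, Units.val_mul, ← mul_assoc, hsτ, hσa, ha', hαg]
        have e1 : A (γ ++ [1]) * ((s * g : Uˣ) : U) = A (v ++ [1]) := by
          rw [← hb, Units.val_mul, ← mul_assoc, hsτ, hσb, hb', hβg]
        intro i
        fin_cases i
        · simpa [A_append, mul_assoc] using e0
        · simpa [A_append, mul_assoc] using e1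
      · obtain ⟨k, hk⟩ := exists_index_of_leaf U (.node c) _ hγ2
        obtain ⟨w, hw⟩ := good_index (.node c) (g : U) hg (σ k)
        refine ⟨w, ?_⟩
        rw [← hk, Units.val_mul, ← mul_assoc, hsτ, hw]
    have h2 := ih (size T') (by rw [← hT]; exact hsz) T' (s * g) rfl hgood
    have h3 : g = s⁻¹ * (s * g) := by group
    rw [h3]
    exact Subgroup.mul_mem _ (Subgroup.inv_mem _ hs1) h2

theorem main (U : Type u) [CPMonoid U] (hU : IsUniversal U) :
    Subgroup.closure (gens U) = ⊤ := by
  rw [eq_top_iff]
  intro g _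
  obtain ⟨h⟩ := hU NN.{u}
  obtain ⟨T, hT⟩ := good_all hU (g : U)
  exact mem_closure h.default (size T) T g rfl hT

end Pool.Agent.R830.CP
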