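import Pool.Agent.R830.CP.Basic

/-!
# The stream model, trees, words
-/

namespace Pool.Agent.R830.CP

universe u

/-! ### Words -/

/-- The element of a CP monoid given by a word: `A (i :: w) = A w * π_i`. -/
def A {M : Type u} [CPMonoid M] : List (Fin 2) → M
  | [] => 1
  | i :: w => A w * p i

@[simp] theorem A_nil {M : Type u} [CPMonoid M] : (A [] : M) = 1 := rfl

@[simp] theorem A_cons {M : Type u} [CPMonoid M] (i : Fin 2) (w : List (Fin 2)) :
    (A (i :: w) : M) = A w * p i := rfl

theorem A_append {M : Type u} [CPMonoid M] (v w : List (Fin 2)) :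
    (A (v ++ w) : M) = A w * A v := by
  induction v with
  | nil => simp
  | cons i v ih => simp [ih, mul_assoc]

/-! ### Trees -/

/-- Finite binary trees. -/
inductive Tree : Type
  | leaf : Tree
  | node : (Fin 2 → Tree) → Tree

/-- `Leaf T w`: the word `w` is the address of a leaf of `T`. -/
def Leaf : Tree → List (Fin 2) → Prop
  | .leaf, w => w = []
  | .node _, [] => False
  | .node c, i :: w => Leaf (c i) w

/-- Number of leaves. -/
def deg : Tree → ℕ
  | .leaf => 1
  | .node c => ∑ i : Fin 2, deg (c i)

/-- Number of inner nodes. -/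
def size : Tree → ℕ
  | .leaf => 0
  | .node c => 1 + (size (c 0) + size (c 1))

/-- The CP structure attached to a tree. -/
def tstr (U : Type u) [CPMonoid U] : (T : Tree) → CPStr U (deg T)
  | .leaf => CPStr.triv U
  | .node c => (CPMonoid.str (M := U)).combine (fun i => deg (c i)) (fun i => tstr U (c i))

theorem tstr_inS (U : Type u) [CPMonoid U] (T : Tree) : InS (tstr U T) := by
  induction T with
  | leaf => exact InS.triv
  | node c ih => exact InS.combine _ _ _ InS.std ih

theorem deg_pos (T : Tree) : 1 ≤ deg T := by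
  induction T with
  | leaf => exact le_rfl
  | node c ih =>
    have h0 := ih 0
    have h1 := ih 1
    simp only [deg, Fin.sum_univ_two]
    omega

theorem two_le_deg (c : Fin 2 → Tree) : 2 ≤ deg (.node c) := by
  have h0 := deg_pos (c 0)
  have h1 := deg_pos (c 1)
  simp only [deg, Fin.sum_univ_two]
  omega

theorem exists_leaf_of_index (U : Type u) [CPMonoid U] (T : Tree) :
    ∀ k : Fin (deg T), ∃ w, Leaf T w ∧ (tstr U T).τ k = A w := by
  induction T with
  | leaf => exact fun k => ⟨[], rfl, rfl⟩
  | node c ih =>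
    intro k
    obtain ⟨⟨i, j⟩, hk⟩ := finSigmaFinEquiv.surjective k
    obtain ⟨w, hw, h⟩ := ih i j
    refine ⟨i :: w, hw, ?_⟩
    have h1 : (tstr U (.node c)).τ k = CPStr.combineτ (CPMonoid.str (M := U))
      (fun i => deg (c i)) (fun i => tstr U (c i)) (finSigmaFinEquiv.symm k) := rfl
    rw [h1, ← hk, Equiv.symm_apply_apply]
    show (tstr U (c i)).τ j * p i = A w * p i
    rw [h]

theorem exists_index_of_leaf (U : Type u) [CPMonoid U] (T : Tree) :
    ∀ w, Leaf T w → ∃ k : Fin (deg T), (tstr U T).τ k = A w := by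
  induction T with
  | leaf =>
    intro w hw
    have : w = [] := hw
    subst this
    exact ⟨(0 : Fin 1), rfl⟩
  | node c ih =>
    intro w hw
    match w, hw with
    | i :: w, hw =>
      obtain ⟨j, hj⟩ := ih i w hw
      refine ⟨finSigmaFinEquiv ⟨i, j⟩, ?_⟩
      have h1 : (tstr U (.node c)).τ (finSigmaFinEquiv ⟨i, j⟩) =
        CPStr.combineτ (CPMonoid.str (M := U)) (fun i => deg (c i)) (fun i => tstr U (c i))
          (finSigmaFinEquiv.symm (finSigmaFinEquiv ⟨i, j⟩)) := rfl
      rw [h1, Equiv.symm_apply_apply]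
      show (tstr U (c i)).τ j * p i = A w * p i
      rw [hj]

/-- An exposed caret can be removed. -/
theorem exists_caret (c : Fin 2 → Tree) : ∃ (δ : List (Fin 2)) (T' : Tree),
    Leaf (.node c) (δ ++ [0]) ∧ Leaf (.node c) (δ ++ [1]) ∧ size T' < size (.node c) ∧
    ∀ γ, Leaf T' γ → γ = δ ∨ Leaf (.node c) γ := by
  generalize hT : Tree.node c = T
  induction T generalizing c with
  | leaf => cases hT
  | node d ih =>
    obtain rfl : c = d := by simpa using hT
    by_cases h : ∃ i e, c i = .node e
    · obtain ⟨i, e, he⟩ := h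
      obtain ⟨δ, T', h0, h1, h2, h3⟩ := ih i e he.symm
      refine ⟨i :: δ, .node (Function.update c i T'), h0, h1, ?_, ?_⟩
      · simp only [size]
        match i, h2 with
        | 0, h2 => simp; exact h2
        | 1, h2 => simp; exact h2
      · intro γ hγ
        match γ, hγ with
        | j :: γ, hγ =>
          by_cases hj : j = i
          · subst hj
            have hγ' : Leaf T' γ := by simpa [Leaf] using hγ
            rcases h3 γ hγ' with h | h
            · exact Or.inl (by rw [h])
            · exact Or.inr h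
          · right
            simpa [Leaf, Function.update_of_ne hj] using hγ
    · push Not at h
      have hl : ∀ i, c i = .leaf := by
        intro i
        cases hi : c i with
        | leaf => rfl
        | node e => exact absurd hi (h i e)
      refine ⟨[], .leaf, ?_, ?_, ?_, ?_⟩
      · simp [Leaf, hl]
      · simp [Leaf, hl]
      · simp [size]
      · intro γ hγ
        exact Or.inl hγ

/-! ### The stream model -/

/-- Infinite sequences of letters. -/
def C : Type u := ℕ → ULift.{u} (Fin 2)

/-- Put a letter in front. -/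
def cns (i : Fin 2) (x : C.{u}) : C.{u} := fun n => match n with
  | 0 => ⟨i⟩
  | n + 1 => x n

theorem cns_inj {i j : Fin 2} {x y : C.{u}} (h : cns i x = cns j y) : i = j ∧ x = y := by
  refine ⟨?_, ?_⟩
  · have := congrFun h 0
    simpa [cns] using congrArg ULift.down this
  · funext n
    exact congrFun h (n + 1)

theorem exists_cns (x : C.{u}) : ∃ i y, x = cns i y := by
  refine ⟨(x 0).down, fun n => x (n + 1), ?_⟩
  funext n
  cases n with
  | zero => rfl
  | succ n => rfl

/-- Put a word in front. -/
def prep : List (Fin 2) → C.{u} → C.{u}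
  | [], x => x
  | i :: w, x => cns i (prep w x)

theorem prep_append (v w : List (Fin 2)) (x : C.{u}) : prep (v ++ w) x = prep v (prep w x) := by
  induction v with
  | nil => rfl
  | cons i v ih => simp [prep, ih]

theorem prep_cmp (v w : List (Fin 2)) (x y : C.{u}) (h : prep v x = prep w y)
    (hl : v.length ≤ w.length) : ∃ t, w = v ++ t ∧ x = prep t y := by
  induction v generalizing w with
  | nil => exact ⟨w, rfl, h⟩
  | cons i v ih =>
    cases w with
    | nil => simp at hl
    | cons j w =>
      obtain ⟨rfl, h2⟩ := cns_inj h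
      obtain ⟨t, rfl, h3⟩ := ih w h2 (by simpa using hl)
      exact ⟨t, rfl, h3⟩

theorem leaf_cover (T : Tree) (x : C.{u}) : ∃ γ y, Leaf T γ ∧ x = prep γ y := by
  induction T generalizing x with
  | leaf => exact ⟨[], x, rfl, rfl⟩
  | node c ih =>
    obtain ⟨i, y, rfl⟩ := exists_cns x
    obtain ⟨γ, z, h1, rfl⟩ := ih i y
    exact ⟨i :: γ, z, h1, rfl⟩

theorem leaf_disj (T : Tree) (γ δ : List (Fin 2)) (x y : C.{u}) (hγ : Leaf T γ) (hδ : Leaf T δ)
    (h : prep γ x = prep δ y) : γ = δ ∧ x = y := by
  induction T generalizing γ δ with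
  | leaf =>
    have h1 : γ = [] := hγ
    have h2 : δ = [] := hδ
    subst h1 h2
    exact ⟨rfl, h⟩
  | node c ih =>
    match γ, δ, hγ, hδ, h with
    | i :: γ, j :: δ, hγ, hδ, h =>
      obtain ⟨rfl, h2⟩ := cns_inj h
      obtain ⟨rfl, h3⟩ := ih i γ δ hγ hδ h2
      exact ⟨rfl, h3⟩

/-- The monoid of maps `C → C` with reversed composition. -/
structure NN : Type u where
  f : C.{u} → C.{u}

@[ext] theorem NN.ext' {a b : NN.{u}} (h : ∀ x, a.f x = b.f x) : a = b := by
  cases a; cases b
  congr
  funext x
  exact h x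

instance : Monoid NN.{u} where
  mul a b := ⟨fun x => b.f (a.f x)⟩
  one := ⟨fun x => x⟩
  mul_assoc _ _ _ := rfl
  one_mul _ := rfl
  mul_one _ := rfl

theorem NN.mul_f (a b : NN.{u}) (x : C.{u}) : (a * b).f x = b.f (a.f x) := rfl

theorem NN.one_f (x : C.{u}) : (1 : NN.{u}).f x = x := rfl

/-- The CP structure of the stream model. -/
def nstr : CPStr NN.{u} 2 where
  Φ := fun m => ⟨fun x => (m (x 0).down).f (fun n => x (n + 1))⟩
  τ := fun i => ⟨cns i⟩
  bij := by
    constructor
    · intro a b h
      funext i
      apply NN.ext'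
      intro x
      have := congrArg (fun g : NN.{u} => g.f (cns i x)) h
      simpa [cns] using this
    · intro b
      refine ⟨fun i => ⟨fun x => b.f (cns i x)⟩, ?_⟩
      apply NN.ext'
      intro x
      obtain ⟨i, y, rfl⟩ := exists_cns x
      rfl
  law := by
    intro m i
    apply NN.ext'
    intro x
    rfl

instance : CPMonoid NN.{u} := { (inferInstance : Monoid NN.{u}) with str := nstr }

theorem NN.p_f (i : Fin 2) (x : C.{u}) : (p i : NN.{u}).f x = cns i x := rfl

theorem NN.A_f (w : List (Fin 2)) (x : C.{u}) : (A w : NN.{u}).f x = prep w x := by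
  induction w with
  | nil => rfl
  | cons i w ih =>
    rw [A_cons, NN.mul_f, ih, NN.p_f]
    rfl

end Pool.Agent.R830.CP
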