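import Pool.Agent.R830.CP.Basic

/-!
# Existence of the universal CP monoid
-/

namespace Pool.Agent.R830.CP

universe u

/-- Terms. -/
inductive Term : Type u
  | one : Term
  | p : Fin 2 → Term
  | mul : Term → Term → Term
  | sg : Term → Term → Term

/-- Provable equality of terms. -/
inductive Rel : Term.{u} → Term.{u} → Prop
  | refl (a : Term.{u}) : Rel a a
  | symm {a b : Term.{u}} : Rel a b → Rel b a
  | trans {a b c : Term.{u}} : Rel a b → Rel b c → Rel a c
  | mul {a a' b b' : Term.{u}} : Rel a a' → Rel b b' → Rel (a.mul b) (a'.mul b')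
  | sg {a a' b b' : Term.{u}} : Rel a a' → Rel b b' → Rel (a.sg b) (a'.sg b')
  | assoc (a b c : Term.{u}) : Rel ((a.mul b).mul c) (a.mul (b.mul c))
  | one_mul (a : Term.{u}) : Rel (Term.one.mul a) a
  | mul_one (a : Term.{u}) : Rel (a.mul Term.one) a
  | p_zero (a b : Term.{u}) : Rel ((Term.p 0).mul (a.sg b)) a
  | p_one (a b : Term.{u}) : Rel ((Term.p 1).mul (a.sg b)) b
  | eta (a : Term.{u}) : Rel (((Term.p 0).mul a).sg ((Term.p 1).mul a)) a

/-- The setoid. -/
def tsetoid : Setoid Term.{u} where
  r := Rel
  iseqv := ⟨Rel.refl, Rel.symm, Rel.trans⟩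

/-- The universal CP monoid. -/
def UU : Type u := Quotient tsetoid.{u}

instance : Monoid UU.{u} where
  mul := Quotient.map₂ Term.mul (fun _ _ h _ _ h' => Rel.mul h h')
  one := Quotient.mk _ Term.one
  mul_assoc := by
    intro a b c
    induction a using Quotient.inductionOn
    induction b using Quotient.inductionOn
    induction c using Quotient.inductionOn
    exact Quotient.sound (Rel.assoc _ _ _)
  one_mul := by
    intro a
    induction a using Quotient.inductionOn
    exact Quotient.sound (Rel.one_mul _)
  mul_one := by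
    intro a
    induction a using Quotient.inductionOn
    exact Quotient.sound (Rel.mul_one _)

/-- Pairing on the quotient. -/
def usg : UU.{u} → UU.{u} → UU.{u} :=
  Quotient.map₂ Term.sg (fun _ _ h _ _ h' => Rel.sg h h')

/-- The letters. -/
def up (i : Fin 2) : UU.{u} := Quotient.mk _ (Term.p i)

theorem up_zero (a b : UU.{u}) : up 0 * usg a b = a := by
  induction a using Quotient.inductionOn
  induction b using Quotient.inductionOn
  exact Quotient.sound (Rel.p_zero _ _)

theorem up_one (a b : UU.{u}) : up 1 * usg a b = b := by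
  induction a using Quotient.inductionOn
  induction b using Quotient.inductionOn
  exact Quotient.sound (Rel.p_one _ _)

theorem usg_eta (a : UU.{u}) : usg (up 0 * a) (up 1 * a) = a := by
  induction a using Quotient.inductionOn
  exact Quotient.sound (Rel.eta _)

/-- The CP structure. -/
def ustr : CPStr UU.{u} 2 where
  Φ := fun m => usg (m 0) (m 1)
  τ := up
  bij := by
    constructor
    · intro a b h
      have h' : usg (a 0) (a 1) = usg (b 0) (b 1) := h
      funext i
      match i with
      | 0 => rw [← up_zero (a 0) (a 1), h', up_zero]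
      | 1 => rw [← up_one (a 0) (a 1), h', up_one]
    · intro a
      exact ⟨fun i => up i * a, usg_eta a⟩
  law := by
    intro m i
    match i with
    | 0 => exact up_zero _ _
    | 1 => exact up_one _ _

instance : CPMonoid UU.{u} := { (inferInstance : Monoid UU.{u}) with str := ustr }

section

variable {N : Type u} [CPMonoid N]

/-- Evaluation of terms. -/
def ev : Term.{u} → N
  | .one => 1
  | .p i => p i
  | .mul a b => ev a * ev b
  | .sg a b => Sg ![ev a, ev b]

theorem ev_rel {a b : Term.{u}} (h : Rel a b) : (ev a : N) = ev b := by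
  induction h with
  | refl a => rfl
  | symm _ ih => exact ih.symm
  | trans _ _ ih1 ih2 => exact ih1.trans ih2
  | mul _ _ ih1 ih2 => simp only [ev, ih1, ih2]
  | sg _ _ ih1 ih2 => simp only [ev, ih1, ih2]
  | assoc a b c => simp only [ev, mul_assoc]
  | one_mul a => simp only [ev, one_mul]
  | mul_one a => simp only [ev, mul_one]
  | p_zero a b => simp only [ev]; rw [p_mul_Sg]; rfl
  | p_one a b => simp only [ev]; rw [p_mul_Sg]; rfl
  | eta a =>
    simp only [ev]
    apply ext_p
    intro i
    rw [p_mul_Sg]
    fin_cases i <;> rfl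

variable (N) in
/-- The homomorphism to `N`. -/
def uhom : CPHom UU.{u} N where
  toFun := Quotient.lift ev (fun _ _ h => ev_rel h)
  map_one' := rfl
  map_mul' := by
    intro a b
    induction a using Quotient.inductionOn
    induction b using Quotient.inductionOn
    rfl
  map_p := fun i => rfl
  map_Sg := by
    intro m
    show Quotient.lift ev (fun _ _ h => ev_rel h) (usg (m 0) (m 1)) =
      Sg (fun i => Quotient.lift (s := tsetoid.{u}) (ev (N := N)) (fun _ _ h => ev_rel h) (m i))
    generalize h0 : m 0 = a
    generalize h1 : m 1 = b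
    have hm : (fun i => Quotient.lift (s := tsetoid.{u}) (ev (N := N)) (fun _ _ h => ev_rel h) (m i))
        = ![Quotient.lift (s := tsetoid.{u}) (ev (N := N)) (fun _ _ h => ev_rel h) a,
          Quotient.lift (s := tsetoid.{u}) (ev (N := N)) (fun _ _ h => ev_rel h) b] := by
      funext i
      fin_cases i
      · simp [h0]
      · simp [h1]
    rw [hm]
    clear hm h0 h1
    induction a using Quotient.inductionOn
    induction b using Quotient.inductionOn
    rfl

theorem CPHom.ext' {M N : Type u} [CPMonoid M] [CPMonoid N] {f g : CPHom M N}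
    (h : ∀ x, f.toFun x = g.toFun x) : f = g := by
  cases f; cases g
  congr
  exact MonoidHom.ext h

theorem uhom_uniq (f g : CPHom UU.{u} N) : f = g := by
  apply CPHom.ext'
  intro x
  induction x using Quotient.inductionOn with
  | h t =>
  induction t with
  | one => exact f.map_one.trans g.map_one.symm
  | p i => exact (f.map_p i).trans (g.map_p i).symm
  | mul a b iha ihb =>
    have h1 : f.toFun (Quotient.mk tsetoid.{u} (a.mul b)) =
      f.toFun (Quotient.mk tsetoid.{u} a) * f.toFun (Quotient.mk tsetoid.{u} b) :=
      f.map_mul (Quotient.mk tsetoid.{u} a : UU.{u}) (Quotient.mk tsetoid.{u} b : UU.{u})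
    have h2 : g.toFun (Quotient.mk tsetoid.{u} (a.mul b)) =
      g.toFun (Quotient.mk tsetoid.{u} a) * g.toFun (Quotient.mk tsetoid.{u} b) :=
      g.map_mul (Quotient.mk tsetoid.{u} a : UU.{u}) (Quotient.mk tsetoid.{u} b : UU.{u})
    rw [h1, h2, iha, ihb]
  | sg a b iha ihb =>
    have h1 := f.map_Sg ![(Quotient.mk tsetoid.{u} a : UU.{u}), (Quotient.mk tsetoid.{u} b : UU.{u})]
    have h2 := g.map_Sg ![(Quotient.mk tsetoid.{u} a : UU.{u}), (Quotient.mk tsetoid.{u} b : UU.{u})]
    have h3 : (fun i => f.toFun ((![(Quotient.mk tsetoid.{u} a : UU.{u}),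
        (Quotient.mk tsetoid.{u} b : UU.{u})] : Fin 2 → UU.{u}) i)) =
        (fun i => g.toFun ((![(Quotient.mk tsetoid.{u} a : UU.{u}),
        (Quotient.mk tsetoid.{u} b : UU.{u})] : Fin 2 → UU.{u}) i)) := by
      funext i
      fin_cases i
      · exact iha
      · exact ihb
    rw [h3] at h1
    exact h1.trans h2.symm

end

theorem exists_universal : IsUniversal UU.{u} := by
  intro N _
  exact ⟨{ default := uhom N, uniq := fun f => uhom_uniq f _ }⟩

end Pool.Agent.R830.CP
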